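import Pool.Agent.Hp21.AW.Odd

/-!
# Alperin's weight conjecture is a statement about parities, for every prime

Definitions used from the library: `IsBlock B` (Pool/Agent/Y63/NV/Defs.lean: a block of `G` is given by its
central character, an algebra homomorphism from the centre of `F[G]` to `F`, `F` algebraically closed
of characteristic `p`), `numIrrBlock B` (Pool/Agent/Y63/NV/Bawc.lean: the number `l(B)` of the irreducible
characters of `G` over `F` in `B`), `numWtBlock p red Q B` (the same file: the number of the irreducible
characters of `N_G(Q)/Q` of `p`-defect zero whose block induces `B`).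

Proof. For `p = 2` this is the case of the congruence modulo `p`. Let `p` be odd. For a block `B` of a group
`Γ` in `X` without characters of defect zero let `S(B) = ∑_σ (-1)^|σ| k(B_σ)` be the alternating sum of
Knörr and Robinson. Using an element of the centre of `F[Γ]` at which the central character of `B` is
`1` and the other ones are `0`, `S(B)` is written as the alternating sum over the classes of chains `σ` of
the numbers `l(b) - w(b)`, summed over the blocks `b` of `Γ_σ` with `b^Γ = B`; so `S(B)` is even. For the
wreath product with `C₂`, `2 S(B ≀ C₂) = S(B)² + 3 S(B)`, so `S(B) = 0` if the sums for all iterated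
wreath products are even. By the theorem of Knörr and Robinson the weight conjecture holds for the
groups in `X`. The blocks in characteristic `p` (algebra homomorphisms to `F`) and the blocks modulo a
valuation ring of `ℂ`, which are used for the recursion, are compared in Pool/Agent/Hp21/AW/Val.lean.
-/

set_option autoImplicit false

open scoped Classical

noncomputable section

namespace Pool.Agent.Results.MP_78bba1_al.BlockParity

open Pool.Agent.Y63.NV (IsBlock numIrrBlock numWtBlock Closed)
open Pool.Agent.Y63.AWC (pSubgroupSetoid)

/-- `w(B)`: the number of conjugacy classes of weights of the block `B` of `G`; the sum is over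
representatives `Q` of the classes of `p`-subgroups of `G`. -/
def numWts (p : ℕ) {F : Type} [Field F] (red : integralClosure ℤ ℂ →+* F) {G : Type} [Group G]
    (B : (G → F) → F) : ℕ :=
  ∑ᶠ c : Quotient (pSubgroupSetoid p G), numWtBlock p red c.out.1 B

/-- The group of order two acts on `G × G` by exchanging the factors. -/
def swap (G : Type) [Group G] : Multiplicative (ZMod 2) →* MulAut (ZMod 2 → G) where
  toFun t :=
    { toFun := fun x i => x (i - t.toAdd)
      invFun := fun x i => x (i + t.toAdd)
      left_inv := fun x => by funext i; simp
      right_inv := fun x => by funext i; simp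
      map_mul' := fun x y => rfl }
  map_one' := by ext x i; simp
  map_mul' s t := by
    ext x i
    simp only [MulAut.mul_apply, MulEquiv.coe_mk, Equiv.coe_fn_mk, toAdd_mul]
    congr 1
    ring

/-- The wreath product `G ≀ C₂`. -/
abbrev Wreath (G : Type) [Group G] : Type := (ZMod 2 → G) ⋊[swap G] Multiplicative (ZMod 2)

/-- **Alperin's weight conjecture is a statement about parities.** Let `p` be a prime and let `X` be a
class of groups (e.g. of all groups) which is closed under isomorphisms, subgroups, quotients by normal
`p`-subgroups and, for finite groups, under `G ↦ G ≀ C₂`. Alperin's equality `l(B) = w(B)` holds for all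
blocks `B` of all finite groups in `X` if and only if `l(B)` and `w(B)` have the same parity for all
blocks `B` of all finite groups in `X`. -/
theorem result (p : ℕ) [Fact p.Prime] (F : Type) [Field F] [IsAlgClosed F] [CharP F p]
    (red : integralClosure ℤ ℂ →+* F) (X : ∀ (G : Type) [Group G], Prop)
    (hiso : ∀ (G H : Type) [Group G] [Group H], (G ≃* H) → X G → X H)
    (hsub : ∀ (G : Type) [Group G] (H : Subgroup G), X G → X H)
    (hquot : ∀ (G : Type) [Group G] (M : Subgroup G) [M.Normal], IsPGroup p M → X G → X (G ⧸ M))
    (hwr : ∀ (G : Type) [Group G] [Finite G], X G → X (Wreath G)) :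
    (∀ (G : Type) [Group G] [Finite G], X G → ∀ B : (G → F) → F, IsBlock B →
      numIrrBlock B = numWts p red B) ↔
    ∀ (G : Type) [Group G] [Finite G], X G → ∀ B : (G → F) → F, IsBlock B →
      numIrrBlock B ≡ numWts p red B [MOD 2] := by
  have hX : Closed p X := ⟨fun G H _ _ hG ⟨e⟩ => hiso G H e hG, fun G _ hG H => hsub G H hG,
    fun G _ hG M _ hM => hquot G M hM hG⟩
  have hwr2 : ∀ (G : Type) [Group G] [Finite G], X G → X (Pool.Agent.N85.WM.Wr 2 G) :=
    fun G _ _ hG => hwr G hG
  have hwr' : ∀ (G : Type) [Group G] [Finite G], X G → X (Pool.Agent.Q90.WR.Wr G) :=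
    fun G _ _ hG => hiso _ _ (Pool.Agent.Hp21.AW.iso G) (hwr2 G hG)
  have htop : ∀ (G : Type) [Group G] [Finite G], X G → Pool.Agent.Y63.NV.XP p X G :=
    fun G _ _ hG => ⟨⊤, inferInstance, hX.iso _ _ hG ⟨Subgroup.topEquiv.symm⟩,
      Pool.Agent.Y63.NV.pgroup_top p G⟩
  constructor
  · intro h G _ _ hG B hB
    rw [h G hG B hB]
  · intro h
    by_cases hp2 : p = 2
    · subst hp2
      intro G _ _ hG
      exact Pool.Agent.N85.WM.bawc_of_modp Pool.Agent.N85.WM.lw' Pool.Agent.N85.WM.ww' red X
        hwr2 h G hG
    · intro G _ _ hG
      exact Pool.Agent.Hp21.AW.block_odd (red := red) hp2 X hX hwr' h G (htop G hG)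

end Pool.Agent.Results.MP_78bba1_al.BlockParity
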