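import Pool.Agent.Hp21.UA.Os

/-!
# An upper bound for the alternating sums of Knörr and Robinson proves Alperin's weight conjecture

For a block `B` of a finite group `G` let `S(B) = ∑_σ (-1)^|σ| k(B_σ)`, the sum over representatives of the
`G`-classes of the chains `σ` of nontrivial `p`-subgroups of `G`, the empty chain included; `k(B_σ)` is the
number of irreducible complex characters of the stabiliser `G_σ` whose block induces `B`. By Knörr and
Robinson, Alperin's weight conjecture holds for all blocks of all finite groups iff `S(B) = 0` for all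
blocks `B` of positive defect.

**Theorem.** (1) It suffices that `S(B) ≤ 0` for all blocks `B` of positive defect, i.e.
`k(B) ≤ ∑_{σ ≠ ∅} (-1)^(|σ|+1) k(B_σ)`. (2) If `p` is odd it even suffices that `S(B) ≤ |G|^ε` for every `ε > 0` and
all blocks `B` of positive defect of all `G` of sufficiently large order (depending on `ε`).

Proof. `S` is multiplicative for direct products: `S(B ⊠ B') = S(B) S(B')`. For this, the sum over the
chains of `p`-subgroups of `G × H`, for an arbitrary function of the stabiliser, is shown to be the double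
sum over the chains of `G` and of `H` (Pool/Agent/Hp21/UA/Chp.lean), by Möbius inversion on the lattice of
subgroups and a product formula for the Euler characteristics of the posets of `p`-subgroups normalised by
a subgroup `K ≤ G × H`. So `S(B)² = S(B ⊠ B) ≤ 0` gives `S(B) = 0` in (1). In (2), `S(B)^(2^j) ≤ |G|^(2^j ε)` for all large
`j`, so `|S(B)| ≤ |G|^ε` for all `ε > 0` and `|S(B)| ≤ 1`. If `S(B) = ± 1` then `S(B ⊠ B) = 1`, and the
wreath product with `C₂` has a block `B'` above `(B ⊠ B) ⊠ (B ⊠ B)` with `2 S(B') = 1² + 3 · 1`, so `S(B') = 2`, a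
contradiction. Conversely, the weight conjecture for the subgroups of `G` gives `S(B) = 0`.
-/

set_option autoImplicit false

open scoped Classical

noncomputable section

namespace Pool.Agent.Results.MP_78bba1_al.OneSidedAlternatingSums

open Pool.Agent.Y63.NV (IsBlock numIrrBlock numWtBlock Closed IsWt IsClassFun centralValue
  numIrrInd)
open Pool.Agent.Y63.AWC (pSubgroupSetoid)
open Pool.Agent.Y63.KR (alternatingSum)

/-- `w(B)`: the number of conjugacy classes of weights of the block `B` of `G`; the sum is over
representatives `Q` of the classes of `p`-subgroups of `G`. -/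
def numWts (p : ℕ) {F : Type} [Field F] (red : integralClosure ℤ ℂ →+* F) {G : Type} [Group G]
    (B : (G → F) → F) : ℕ :=
  ∑ᶠ c : Quotient (pSubgroupSetoid p G), numWtBlock p red c.out.1 B

/-- Alperin's equality `l(B) = w(B)` holds for all blocks `B` of all finite groups in `X`. -/
def AlperinHolds (p : ℕ) {F : Type} [Field F] (red : integralClosure ℤ ℂ →+* F)
    (X : ∀ (G : Type) [Group G], Prop) : Prop :=
  ∀ (G : Type) [Group G] [Finite G], X G → ∀ B : (G → F) → F, IsBlock B →
    numIrrBlock B = numWts p red B

/-- The block `B` has positive defect: it contains no irreducible character of `p`-defect zero. -/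
def PositiveDefect (p : ℕ) {F : Type} [Field F] (red : integralClosure ℤ ℂ →+* F) {G : Type}
    [Group G] (B : (G → F) → F) : Prop :=
  ∀ χ : G → ℂ, IsWt p (⊥ : Subgroup G) χ →
    ¬ ∀ f : G → F, IsClassFun f → centralValue red χ f = B f

/-- The alternating sum `S(B) = ∑_σ (-1)^|σ| k(B_σ)` of Knörr and Robinson. -/
def S (p : ℕ) {F : Type} [Field F] (red : integralClosure ℤ ℂ →+* F) {G : Type} [Group G]
    (B : (G → F) → F) : ℤ :=
  alternatingSum p G fun H => (numIrrInd red H B : ℤ)

/-- The group of order two acts on `G × G` by exchanging the factors. -/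
def swap (G : Type) [Group G] : Multiplicative (ZMod 2) →* MulAut (ZMod 2 → G) where
  toFun t :=
    { toFun := fun x i => x (i - t.toAdd)
      invFun := fun x i => x (i + t.toAdd)
      left_inv := fun x => by funext i; simp
      right_inv := fun x => by funext i; simp
      map_mul' := fun x y => rfl }
  map_one' := by ext x i; simp
  map_mul' s t := by
    ext x i
    simp only [MulAut.mul_apply, MulEquiv.coe_mk, Equiv.coe_fn_mk, toAdd_mul]
    congr 1
    ring

/-- The wreath product `G ≀ C₂`. -/
abbrev Wreath (G : Type) [Group G] : Type := (ZMod 2 → G) ⋊[swap G] Multiplicative (ZMod 2)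

/-- **An upper bound for the alternating sums of Knörr and Robinson is enough.** Let `p` be a prime and let
`X` be a class of groups (e.g. of all groups) which is closed under isomorphisms, subgroups, quotients by
normal `p`-subgroups and, for finite groups, under `G ↦ G × G`.
* Alperin's equality `l(B) = w(B)` holds for all blocks of all finite groups in `X` if and only if `S(B) ≤ 0`
  for all blocks `B` of positive defect of all finite groups in `X`.
* If `p` is odd and `X` is also closed under `G ↦ G ≀ C₂` then this is also equivalent to: for every `ε > 0`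
  there is an `n₀` such that `S(B) ≤ |G|^ε` for all blocks `B` of positive defect of all finite groups `G` in
  `X` with `|G| ≥ n₀`. -/
theorem result (p : ℕ) [Fact p.Prime] (F : Type) [Field F] [IsAlgClosed F] [CharP F p]
    (red : integralClosure ℤ ℂ →+* F) (X : ∀ (G : Type) [Group G], Prop)
    (hiso : ∀ (G H : Type) [Group G] [Group H], (G ≃* H) → X G → X H)
    (hsub : ∀ (G : Type) [Group G] (H : Subgroup G), X G → X H)
    (hquot : ∀ (G : Type) [Group G] (M : Subgroup G) [M.Normal], IsPGroup p M → X G → X (G ⧸ M))
    (hsq : ∀ (G : Type) [Group G] [Finite G], X G → X (G × G)) :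
    (AlperinHolds p red X ↔
      ∀ (G : Type) [Group G] [Finite G], X G → ∀ B : (G → F) → F, IsBlock B →
        PositiveDefect p red B → S p red B ≤ 0) ∧
    (p ≠ 2 → (∀ (G : Type) [Group G] [Finite G], X G → X (Wreath G)) →
      (AlperinHolds p red X ↔
        ∀ ε : ℝ, 0 < ε → ∃ n₀ : ℕ, ∀ (G : Type) [Group G] [Finite G], X G → n₀ ≤ Nat.card G →
          ∀ B : (G → F) → F, IsBlock B → PositiveDefect p red B →
            (S p red B : ℝ) ≤ (Nat.card G : ℝ) ^ ε)) := by
  have hX : Closed p X := ⟨fun G H _ _ hG ⟨e⟩ => hiso G H e hG, fun G _ hG H => hsub G H hG,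
    fun G _ hG M _ hM => hquot G M hM hG⟩
  have back : AlperinHolds p red X → ∀ (G : Type) [Group G] [Finite G], X G →
      ∀ B : (G → F) → F, IsBlock B → PositiveDefect p red B → S p red B = 0 := by
    intro h G _ _ hG B hB hz
    exact Pool.Agent.Hp21.UA.zero_of_bawc (p := p) (red := red) X hX h G hG B hB hz
  have forth : (∀ (G : Type) [Group G] [Finite G], X G → ∀ B : (G → F) → F, IsBlock B →
      PositiveDefect p red B → S p red B = 0) → AlperinHolds p red X := by
    intro h G _ _ hG
    exact Pool.Agent.Hp21.UA.bawc_of_zero (p := p) (red := red) X hX h G hG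
  refine ⟨⟨fun h G _ _ hG B hB hz => (back h G hG B hB hz).le, fun h => forth ?_⟩,
    fun hp2 hwr => ⟨fun h ε _ => ⟨0, fun G _ _ hG _ B hB hz => ?_⟩, fun h => forth ?_⟩⟩
  · intro G _ _ hG B hB hz
    have := Fintype.ofFinite G
    have h1 := h (G × G) (hsq G hG) (Pool.Agent.Hp21.UA.bx B B)
      (Pool.Agent.Hp21.UA.bx_block red hB hB)
      (Pool.Agent.Hp21.UA.Pos.bx (p := p) (red := red) hB hB hz)
    have h2 : S p red (Pool.Agent.Hp21.UA.bx B B) = S p red B * S p red B :=
      Pool.Agent.Hp21.UA.KR_bx (p := p) red hB hB
    rw [h2] at h1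
    nlinarith [mul_self_nonneg (S p red B), mul_self_eq_zero.mp
      (le_antisymm h1 (mul_self_nonneg (S p red B)))]
  · rw [back h G hG B hB hz, Int.cast_zero]
    exact Real.rpow_nonneg (Nat.cast_nonneg _) _
  · intro G _ _ hG B hB hz
    have hwr' : ∀ (G : Type) [Group G] [Finite G], X G → X (Pool.Agent.Q90.WR.Wr G) :=
      fun G _ _ hG => hiso _ _ (Pool.Agent.Hp21.AW.iso G) (hwr G hG)
    exact Pool.Agent.Hp21.UA.zero_of_le_one (p := p) (red := red) hp2 X hsq hwr'
      (fun H _ _ hH B' hB' hz' =>
        Pool.Agent.Hp21.UA.abs_le_one (p := p) (red := red) X hsq h H hH B' hB' hz') G hG B hB hz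

end Pool.Agent.Results.MP_78bba1_al.OneSidedAlternatingSums
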