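import Pool.Agent.Hp21.UA.Uni

/-!
# Alperin's weight conjecture: universal groups and perfect groups

Definitions used from the library: `IsBlock B` (Pool/Agent/Y63/NV/Defs.lean: a block of `G` is given by its
central character, an algebra homomorphism from the centre of `F[G]` to `F`, `F` algebraically closed
of characteristic `p`), `numIrrBlock B` (Pool/Agent/Y63/NV/Bawc.lean: the number `l(B)` of the irreducible
characters of `G` over `F` in `B`), `numWtBlock p red Q B` (the same file: the number of the irreducible
characters of `N_G(Q)/Q` of `p`-defect zero whose block induces `B`); Mathlib's `M ≀ᵣ A` is the regular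
wreath product `M^A ⋊ A`; `prodOne M A` (Pool/Agent/Hp21/UN/VDef.lean) is its subgroup of the elements
`(f, a)` with `∏ f(x) = 1`.

Proof. Let `E` be a finite abelian `p'`-group on which `A` acts, `θ` a linear character of `E` and `G`
its stabiliser in `A`. A block `b` of `G` gives a block `B` of `E ⋊ A`, and every block of `E ⋊ A` is
obtained in this way. `l(B) = l(b)`: the space of the class functions on the `p`-regular elements which
belong to `b` is isomorphic to the one for `B`, by inducing `θ ⊗ u`. `w(B) = w(b)`: for a `p`-subgroup `Q`
of `G` the group `N_{E ⋊ A}(Q)` is `C_E(Q) ⋊ N_A(Q)`, the stabiliser in `N_A(Q)` of the restriction of `θ` to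
`C_E(Q)` is `N_G(Q)`, and inducing gives a bijection from the weights `(Q, ζ)` of `b` up to conjugacy to
the ones of `B`; a weight of `B` is conjugate to one whose subgroup is in `G` because an element of the
centre of `F[E ⋊ A]` at which `B` is `|E|` counts the conjugates of `θ` below the weight. All subgroups of
`A` are stabilisers of characters of `E = M^A`, and `A` and all its subgroups of index at least `3` are
stabilisers of characters of `E = {f | ∏ f(x) = 1}`. For perfect `A` the group `E ⋊ A` is perfect.
-/

set_option autoImplicit false

open scoped Classical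

noncomputable section

namespace Pool.Agent.Results.MP_78bba1_al.PerfectGroupsSuffice

open Pool.Agent.Y63.NV (IsBlock numIrrBlock numWtBlock)
open Pool.Agent.Y63.AWC (pSubgroupSetoid)
open Pool.Agent.Hp21.UN (prodOne)

/-- `w(B)`: the number of conjugacy classes of weights of the block `B` of `G`; the sum is over
representatives `Q` of the classes of `p`-subgroups of `G`. -/
def numWts (p : ℕ) {F : Type} [Field F] (red : integralClosure ℤ ℂ →+* F) {G : Type} [Group G]
    (B : (G → F) → F) : ℕ :=
  ∑ᶠ c : Quotient (pSubgroupSetoid p G), numWtBlock p red c.out.1 B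

/-- The set of the pairs `(l(B), w(B))` for the blocks `B` of `G`. -/
def pairs (p : ℕ) {F : Type} [Field F] (red : integralClosure ℤ ℂ →+* F) (G : Type) [Group G] :
    Set (ℕ × ℕ) :=
  {x | ∃ B : (G → F) → F, IsBlock B ∧ x = (numIrrBlock B, numWts p red B)}

/-- Alperin's weight conjecture for the group `G`: `l(B) = w(B)` for all blocks `B` of `G`. -/
def WeightConjecture (p : ℕ) {F : Type} [Field F] (red : integralClosure ℤ ℂ →+* F) (G : Type)
    [Group G] : Prop :=
  ∀ B : (G → F) → F, IsBlock B → numIrrBlock B = numWts p red B

/-- **Alperin's weight conjecture is a statement about perfect groups with a single nonabelian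
composition factor, an alternating group.** Let `p` be a prime, `F` an algebraically closed field of
characteristic `p`, and `M` a nontrivial finite abelian group of order prime to `p` (e.g. of order `2`
or `3`).

1. For every finite group `A` the pairs `(l(B), w(B))`, `B` a block of `M ≀ᵣ A`, are exactly the pairs
`(l(b), w(b))`, `b` a block of a subgroup of `A`.

2. For every finite perfect group `A` the group `V(A) = {f : A → M | ∏ f(x) = 1} ⋊ A` is perfect, and
the same holds for `V(A)` instead of `M ≀ᵣ A`. In particular the weight conjecture for the blocks of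
the perfect group `V(A)` is the weight conjecture for the blocks of all subgroups of `A`.

3. The weight conjecture holds for all finite groups if and only if it holds for the groups `V(A_n)`,
`A_n` the alternating group, for infinitely many `n`; for `n ≥ 5` these groups are perfect. -/
theorem result (p : ℕ) [Fact p.Prime] (F : Type) [Field F] [IsAlgClosed F] [CharP F p]
    (red : integralClosure ℤ ℂ →+* F)
    (M : Type) [CommGroup M] [Finite M] [Nontrivial M] (hM : ¬ p ∣ Nat.card M) :
    (∀ (A : Type) [Group A] [Finite A],
      pairs p red (M ≀ᵣ A) = ⋃ K : Subgroup A, pairs p red K) ∧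
    (∀ (A : Type) [Group A] [Finite A], commutator A = ⊤ → commutator (prodOne M A) = ⊤ ∧
      pairs p red (prodOne M A) = ⋃ K : Subgroup A, pairs p red K) ∧
    (∀ n : ℕ, 5 ≤ n → commutator (prodOne M (alternatingGroup (Fin n))) = ⊤) ∧
    ((∀ (G : Type) [Group G] [Finite G], WeightConjecture p red G) ↔
      ∀ m : ℕ, ∃ n : ℕ, m ≤ n ∧
        WeightConjecture p red (prodOne M (alternatingGroup (Fin n)))) := by
  have alt : ∀ n : ℕ, 5 ≤ n → commutator (alternatingGroup (Fin n)) = ⊤ := fun n hn =>
    commutator_alternatingGroup_eq_top (by
      rw [Nat.card_eq_fintype_card, Fintype.card_fin]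
      exact hn)
  have key : ∀ (G : Type) [Group G], WeightConjecture p red G ↔
      ∀ x ∈ Pool.Agent.Hp21.UA.prs p red G, x.1 = x.2 := by
    intro G _
    constructor
    · rintro h _ ⟨B, hB, rfl⟩
      exact h B hB
    · intro h B hB
      exact h _ ⟨B, hB, rfl⟩
  refine ⟨fun A _ _ => Pool.Agent.Hp21.UA.reg_union hM A,
    fun A _ _ hA => ⟨Pool.Agent.Hp21.UN.perfect_p hA, Pool.Agent.Hp21.UA.aug_union hM A hA⟩,
    fun n hn => Pool.Agent.Hp21.UN.perfect_p (alt n hn), ?_⟩
  constructor
  · intro h m
    have : Finite (prodOne M (alternatingGroup (Fin m))) := by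
      have : Finite (M ≀ᵣ alternatingGroup (Fin m)) :=
        Finite.of_equiv _ (RegularWreathProduct.equivProd M (alternatingGroup (Fin m))).symm
      infer_instance
    exact ⟨m, le_rfl, h _⟩
  · intro h G _ _
    rw [key]
    refine Pool.Agent.Hp21.UA.all_of_alt (M := M) hM (fun m => ?_) G
    obtain ⟨n, hn, h1⟩ := h m
    exact ⟨n, hn, (key _).mp h1⟩

end Pool.Agent.Results.MP_78bba1_al.PerfectGroupsSuffice
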