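import Pool.Agent.Hp21.AW.Two
import Pool.Agent.Hp21.AW.Iso

/-!
# The numbers of real classes and of real weights of finite groups

Definitions used from the library: `numRegularClasses p G` and `numWeights p G`
(Pool/Agent/Y63/AWC/Defs.lean: the number of the conjugacy classes of `p`-regular elements, which is the
number of simple `kG`-modules, and the number of classes of weights), `numRealDefectZero p G`
(Pool/Agent/Q90/WR/Krq.lean: the number of the real-valued irreducible characters of `p`-defect zero).

Proof. The numbers of classes of `p`-regular elements and of weights have the same parity as those of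
real classes and real weights. For `p = 2` use the recursion for `G ≀ C₂` for both numbers. Let `p` be
odd and let `S(Γ)` be the error term of the Knörr-Robinson identity for the group `Γ`. It is the
alternating sum over the classes of chains of `p`-subgroups of the differences of the two numbers for
the stabilisers, hence even for `Γ` in `X`. Since `2 x(Γ ≀ C₂) = x(Γ)² + 3 x(Γ)` for both sides `x` of the
Knörr-Robinson identity, it holds for all groups in `X`. By the theorem of Knörr and Robinson so does
the weight conjecture.
-/

set_option autoImplicit false

open scoped Classical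

noncomputable section

namespace Pool.Agent.Results.MP_78bba1_al.RealParity

open Pool.Agent.Y63.NV (Closed)
open Pool.Agent.Y63.AWC (pSubgroupSetoid numWeights numRegularClasses)
open Pool.Agent.Q90.WR (numRealDefectZero)

/-- The number of conjugacy classes of `p`-regular elements `x` which are real, that is, conjugate
to `x⁻¹`. -/
def numRealRegularClasses (p : ℕ) (G : Type) [Group G] : ℕ :=
  Nat.card {c : ConjClasses G // ∃ x : G, ConjClasses.mk x = c ∧ ¬ p ∣ orderOf x ∧ IsConj x x⁻¹}

/-- The number of conjugacy classes of weights `(Q, χ)` of `G` with a real-valued character `χ` of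
`N_G(Q)/Q`. -/
def numRealWeights (p : ℕ) (G : Type) [Group G] : ℕ :=
  ∑ᶠ c : Quotient (pSubgroupSetoid p G),
    numRealDefectZero p (Subgroup.normalizer (c.out.1 : Set G) ⧸
      c.out.1.subgroupOf (Subgroup.normalizer (c.out.1 : Set G)))

/-- The group of order two acts on `G × G` by exchanging the factors. -/
def swap (G : Type) [Group G] : Multiplicative (ZMod 2) →* MulAut (ZMod 2 → G) where
  toFun t :=
    { toFun := fun x i => x (i - t.toAdd)
      invFun := fun x i => x (i + t.toAdd)
      left_inv := fun x => by funext i; simp
      right_inv := fun x => by funext i; simp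
      map_mul' := fun x y => rfl }
  map_one' := by ext x i; simp
  map_mul' s t := by
    ext x i
    simp only [MulAut.mul_apply, MulEquiv.coe_mk, Equiv.coe_fn_mk, toAdd_mul]
    congr 1
    ring

/-- The wreath product `G ≀ C₂`. -/
abbrev Wreath (G : Type) [Group G] : Type := (ZMod 2 → G) ⋊[swap G] Multiplicative (ZMod 2)

/-- **Real classes and real weights.** Let `p` be a prime and let `X` be a class of groups (e.g. of all
groups) which is closed under isomorphisms, subgroups, quotients by normal `p`-subgroups and, for finite
groups, under `G ↦ G ≀ C₂`. The numbers of classes of `p`-regular elements and of classes of weights are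
equal for all finite groups in `X` if and only if the numbers of classes of real `p`-regular elements
and of classes of weights with a real-valued character have the same parity for all finite groups
in `X`. -/
theorem result (p : ℕ) [Fact p.Prime] (X : ∀ (G : Type) [Group G], Prop)
    (hiso : ∀ (G H : Type) [Group G] [Group H], (G ≃* H) → X G → X H)
    (hsub : ∀ (G : Type) [Group G] (H : Subgroup G), X G → X H)
    (hquot : ∀ (G : Type) [Group G] (M : Subgroup G) [M.Normal], IsPGroup p M → X G → X (G ⧸ M))
    (hwr : ∀ (G : Type) [Group G] [Finite G], X G → X (Wreath G)) :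
    (∀ (G : Type) [Group G] [Finite G], X G → numRegularClasses p G = numWeights p G) ↔
    ∀ (G : Type) [Group G] [Finite G], X G →
      numRealRegularClasses p G ≡ numRealWeights p G [MOD 2] := by
  have hX : Closed p X := ⟨fun G H _ _ hG ⟨e⟩ => hiso G H e hG, fun G _ hG H => hsub G H hG,
    fun G _ hG M _ hM => hquot G M hM hG⟩
  have hwr2 : ∀ (G : Type) [Group G] [Finite G], X G → X (Pool.Agent.N85.WM.Wr 2 G) :=
    fun G _ _ hG => hwr G hG
  have hwr' : ∀ (G : Type) [Group G] [Finite G], X G → X (Pool.Agent.Q90.WR.Wr G) :=
    fun G _ _ hG => hiso _ _ (Pool.Agent.Hp21.AW.iso G) (hwr2 G hG)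
  have hmod : ∀ (G : Type) [Group G] [Finite G],
      (numRealRegularClasses p G ≡ numRealWeights p G [MOD 2] ↔
        numRegularClasses p G ≡ numWeights p G [MOD 2]) := by
    intro G _ _
    have h1 := Pool.Agent.Hp21.AW.regular_mod p G
    have h2 := Pool.Agent.Hp21.AW.weights_mod p G
    exact ⟨fun h => h1.trans (h.trans h2.symm), fun h => h1.symm.trans (h.trans h2)⟩
  constructor
  · intro h G _ _ hG
    rw [hmod, h G hG]
  · intro h
    have h' : ∀ (G : Type) [Group G] [Finite G], X G →
        numRegularClasses p G ≡ numWeights p G [MOD 2] := fun G _ _ hG =>
      (hmod G).mp (h G hG)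
    by_cases hp2 : p = 2
    · subst hp2
      exact Pool.Agent.Hp21.AW.free_two X hwr2 h'
    · exact Pool.Agent.Hp21.AW.free_odd p hp2 X hX hwr' h'

end Pool.Agent.Results.MP_78bba1_al.RealParity
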